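import Mathlib

namespace Pool.Agent.MP_f21dda_al

/-- one Engel step `x ↦ [x,y]` -/
def E {G : Type*} [Group G] (y x : G) : G := x⁻¹ * y⁻¹ * x * y

/-- `y` is a (left) Engel element -/
def Eng {G : Type*} [Group G] (y : G) : Prop := ∀ x, ∃ n, (E y)^[n] x = 1

section basic
variable {G H : Type*} [Group G] [Group H]

lemma map_E (π : G →* H) (y x : G) : π (E y x) = E (π y) (π x) := by
  simp [E]

lemma map_E_iter (π : G →* H) (y x : G) (n : ℕ) : π ((E y)^[n] x) = (E (π y))^[n] (π x) := by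
  induction n generalizing x with
  | zero => rfl
  | succ n ih => rw [Function.iterate_succ_apply, Function.iterate_succ_apply, ih, map_E]

lemma Eng.map_surj (π : G →* H) (hπ : Function.Surjective π) {y : G} (h : Eng y) : Eng (π y) := by
  intro x
  obtain ⟨x, rfl⟩ := hπ x
  obtain ⟨n, hn⟩ := h x
  exact ⟨n, by rw [← map_E_iter, hn, map_one]⟩

lemma Eng.of_inj (π : G →* H) (hπ : Function.Injective π) {y : G} (h : Eng (π y)) : Eng y := by
  intro x
  obtain ⟨n, hn⟩ := h (π x)
  exact ⟨n, hπ (by rw [map_E_iter, hn, map_one])⟩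

lemma Eng.conj {y : G} (h : Eng y) (x : G) : Eng (x⁻¹ * y * x) := by
  have := h.map_surj (MulAut.conj x⁻¹).toMonoidHom (MulAut.conj x⁻¹).surjective
  simpa using this

lemma E_eq_one {y x : G} : E y x = 1 ↔ Commute y x := by
  unfold E
  constructor
  · intro h
    have : x * y = y * x * (x⁻¹ * y⁻¹ * x * y) := by group
    rw [h, mul_one] at this
    exact this.symm
  · intro h
    have : x⁻¹ * y⁻¹ * x * y = x⁻¹ * y⁻¹ * (x * y) := by group
    rw [this, ← h.eq]; group

lemma E_E_eq_one {y x : G} : E y (E y x) = 1 ↔ Commute y (x⁻¹ * y * x) := by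
  rw [E_eq_one]
  have : E y x = (x⁻¹ * y * x)⁻¹ * y := by unfold E; group
  rw [this]
  constructor
  · intro h
    have h2 := (h.mul_right (Commute.refl y).inv_right).inv_right
    simpa using h2
  · intro h
    exact h.inv_right.mul_right (Commute.refl y)

/-- descent from three steps to two steps gives two steps for all. -/
lemma two_of_descent {y : G} (hy : Eng y)
    (h : ∀ x, Commute y ((x⁻¹ * y * x) * y * (x⁻¹ * y * x)⁻¹) → Commute y (x⁻¹ * y * x)) (x : G) :
    Commute y (x⁻¹ * y * x) := by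
  have step : ∀ x, E y (E y (E y x)) = 1 → E y (E y x) = 1 := by
    intro x hx
    rw [E_E_eq_one] at hx ⊢
    apply h
    have e1 : (x⁻¹ * y * x) * y * (x⁻¹ * y * x)⁻¹ = y * ((E y x)⁻¹ * y * E y x) * y⁻¹ := by
      unfold E; group
    rw [e1]
    exact ((Commute.refl y).mul_right hx).mul_right (Commute.refl y).inv_right
  have key : ∀ n x, (E y)^[n] x = 1 → E y (E y x) = 1 := by
    intro n
    induction n with
    | zero => intro x hx; simp at hx; subst hx; simp [E]
    | succ n ih =>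
      intro x hx
      rw [Function.iterate_succ_apply] at hx
      exact step x (ih _ hx)
  obtain ⟨n, hn⟩ := hy x
  exact E_E_eq_one.1 (key n x hn)

end basic

section abs
variable {Q X : Type*} [Group Q] [LinearOrder X] [MulAction Q X]

/-- hypotheses of the abstract part -/
structure Good (Q X : Type*) [Group Q] [LinearOrder X] [MulAction Q X] : Prop where
  ne : Nonempty X
  mono : ∀ q : Q, StrictMono fun x : X => q • x
  faith : ∀ q : Q, (∀ x : X, q • x = x) → q = 1
  sign : ∀ f : Q, (∀ x : X, f • x ≠ x) → (∀ x : X, x < f • x) ∨ (∀ x : X, f • x < x)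
  arch : ∀ f : Q, (∀ x : X, x < f • x) → ∀ x y : X, ∃ n : ℕ, y < f ^ n • x
  kop : ∀ f h : Q, (∀ x : X, f • x ≠ x) → Commute f h → (∃ p : X, h • p = p) → h = 1

variable (X) in
def Pos (f : Q) : Prop := ∀ x : X, x < f • x

lemma Good.lt (g : Good Q X) (q : Q) {x y : X} (h : x < y) : q • x < q • y := g.mono q h
lemma Good.le (g : Good Q X) (q : Q) {x y : X} (h : x ≤ y) : q • x ≤ q • y := (g.mono q).monotone h

lemma Good.pos_inv (g : Good Q X) {f : Q} (h : ∀ x : X, f • x < x) : Pos X f⁻¹ := by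
  intro x
  have := g.lt f⁻¹ (h x)
  simpa using this

lemma Good.tri (g : Good Q X) {f h : Q} (hf : ∀ x : X, f • x ≠ x) (hc : Commute f h) :
    h = 1 ∨ Pos X h ∨ Pos X h⁻¹ := by
  by_cases hp : ∃ p : X, h • p = p
  · exact Or.inl (g.kop f h hf hc hp)
  · push Not at hp
    rcases g.sign h hp with h1 | h1
    · exact Or.inr (Or.inl h1)
    · exact Or.inr (Or.inr (g.pos_inv h1))

/-- pointwise comparison from comparison at one point -/
lemma Good.le_all (g : Good Q X) {f u v : Q} (hf : ∀ x : X, f • x ≠ x) (hu : Commute f u)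
    (hv : Commute f v) {p : X} (h : u • p ≤ v • p) (x : X) : u • x ≤ v • x := by
  rcases g.tri hf (hu.inv_right.mul_right hv) with h1 | h1 | h1
  · have : u = v := inv_mul_eq_one.1 h1
    rw [this]
  · have := g.lt u (h1 x)
    simp only [mul_smul, smul_inv_smul] at this
    exact this.le
  · have := g.lt v (h1 p)
    simp only [mul_inv_rev, inv_inv, mul_smul, smul_inv_smul] at this
    exact absurd h (not_le.2 this)

lemma Good.lt_all (g : Good Q X) {f u v : Q} (hf : ∀ x : X, f • x ≠ x) (hu : Commute f u)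
    (hv : Commute f v) {p : X} (h : u • p < v • p) (x : X) : u • x < v • x := by
  by_contra h1
  push Not at h1
  exact absurd (g.le_all hf hv hu h1 p) (not_le.2 h)

lemma Good.pow_mono (g : Good Q X) {e : Q} (he : Pos X e) (x : X) :
    StrictMono fun m : ℤ => e ^ m • x := by
  apply strictMono_int_of_lt_succ
  intro m
  rw [zpow_add_one, mul_smul]
  exact g.lt _ (he x)

lemma Good.sandwich (g : Good Q X) {e : Q} (he : Pos X e) (p y : X) :
    ∃ m : ℤ, e ^ m • p ≤ y ∧ y < e ^ (m + 1) • p := by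
  have hb : ∃ b : ℤ, ∀ z : ℤ, e ^ z • p ≤ y → z ≤ b := by
    obtain ⟨n, hn⟩ := g.arch e he p y
    refine ⟨n, fun z hz => ?_⟩
    by_contra h
    push Not at h
    have := g.pow_mono he p h
    simp only [zpow_natCast] at this
    exact absurd (hn.trans this) (not_lt.2 hz)
  have hn : ∃ z : ℤ, e ^ z • p ≤ y := by
    obtain ⟨n, hn⟩ := g.arch e he y p
    refine ⟨-n, ?_⟩
    have := g.lt (e ^ n)⁻¹ hn
    simp only [inv_smul_smul] at this
    simpa using this.le
  obtain ⟨m, hm, hm2⟩ := Int.exists_greatest_of_bdd hb hn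
  refine ⟨m, hm, ?_⟩
  by_contra h
  push Not at h
  have := hm2 _ h
  omega

lemma Good.holder_aux (g : Good Q X) {f h k : Q} (hf : ∀ x : X, f • x ≠ x) (hh : Commute f h)
    (hk : Commute f k) (hd : Pos X (h * k * h⁻¹ * k⁻¹)) : False := by
  obtain ⟨p⟩ := g.ne
  set d := h * k * h⁻¹ * k⁻¹ with hdef
  have hdc : Commute f d := ((hh.mul_right hk).mul_right hh.inv_right).mul_right hk.inv_right
  -- d < e^2 for every positive e in the centraliser
  have key : ∀ e : Q, Commute f e → Pos X e → ∀ x : X, d • x < (e * e) • x := by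
    intro e hec he
    obtain ⟨m, hm1, hm2⟩ := g.sandwich he p (h • p)
    obtain ⟨n, hn1, hn2⟩ := g.sandwich he p (k • p)
    have a1 := g.le_all hf (hec.zpow_right m) hh hm1
    have a2 := g.lt_all hf hh (hec.zpow_right (m + 1)) hm2
    have b1 := g.le_all hf (hec.zpow_right n) hk hn1
    have b2 := g.lt_all hf hk (hec.zpow_right (n + 1)) hn2
    intro x
    set y := (k * h)⁻¹ • x with hy
    have hx : x = k • h • y := by rw [hy, ← mul_smul, smul_inv_smul]
    have e1 : d • x = h • k • y := by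
      rw [hy, ← mul_smul, ← mul_smul, hdef]; congr 1; group
    have c1 : h • k • y < e ^ (m + 1) • e ^ (n + 1) • y := (g.lt h (b2 y)).trans (a2 _)
    have c2 : e ^ n • e ^ m • y ≤ x := by
      rw [hx]; exact (g.le _ (a1 y)).trans (b1 _)
    have c3 : e ^ (m + 1) • e ^ (n + 1) • y = (e * e) • e ^ n • e ^ m • y := by
      simp only [← mul_smul]; congr 1; group
    rw [e1]
    exact c1.trans_le (c3 ▸ g.le _ c2)
  by_cases hex : ∃ e₁ : Q, Commute f e₁ ∧ Pos X e₁ ∧ e₁ • p < d • p
  · obtain ⟨e₁, hc, hp, hl⟩ := hex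
    have hl' := g.lt_all hf hc hdc hl
    have hc2 : Commute f (e₁⁻¹ * d) := hc.inv_right.mul_right hdc
    have hp2 : Pos X (e₁⁻¹ * d) := by
      intro x
      have := g.lt e₁⁻¹ (hl' x)
      simpa [mul_smul] using this
    have hdd : ∀ x : X, d • x = e₁ • (e₁⁻¹ * d) • x := by intro x; simp [mul_smul]
    rcases le_total (e₁ • p) ((e₁⁻¹ * d) • p) with h1 | h1
    · have := key e₁ hc hp p
      rw [hdd, mul_smul e₁ e₁] at this
      exact absurd (g.le e₁ h1) (not_le.2 this)
    · have := key _ hc2 hp2 p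
      rw [hdd p, mul_smul (e₁⁻¹ * d)] at this
      exact absurd (g.le_all hf hc2 hc h1 _) (not_le.2 this)
  · push Not at hex
    have pw : ∀ u : Q, Commute f u → ∃ m : ℤ, u = d ^ m := by
      intro u hu
      obtain ⟨m, hm1, hm2⟩ := g.sandwich hd p (u • p)
      have hc : Commute f ((d ^ m)⁻¹ * u) := (hdc.zpow_right m).inv_right.mul_right hu
      rcases g.tri hf hc with h1 | h1 | h1
      · exact ⟨m, (inv_mul_eq_one.1 h1).symm⟩
      · have := hex _ hc h1
        have h3 := g.le (d ^ m) this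
        simp only [mul_smul, smul_inv_smul] at h3
        rw [zpow_add_one, mul_smul] at hm2
        exact absurd h3 (not_le.2 hm2)
      · have := g.lt u (h1 p)
        simp only [mul_inv_rev, inv_inv, mul_smul, smul_inv_smul] at this
        exact absurd hm1 (not_le.2 this)
    obtain ⟨m, hm⟩ := pw h hh
    obtain ⟨n, hn⟩ := pw k hk
    have hc : Commute h k := by
      rw [hm, hn]; exact Commute.zpow_zpow (Commute.refl d) m n
    have : d = 1 := by rw [hdef, hc.eq]; group
    have h2 := hd p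
    rw [this, one_smul] at h2
    exact lt_irrefl _ h2

lemma Good.holder (g : Good Q X) {f h k : Q} (hf : ∀ x : X, f • x ≠ x) (hh : Commute f h)
    (hk : Commute f k) : Commute h k := by
  have hdc : Commute f (h * k * h⁻¹ * k⁻¹) :=
    ((hh.mul_right hk).mul_right hh.inv_right).mul_right hk.inv_right
  rcases g.tri hf hdc with h1 | h1 | h1
  · have : h * k = (h * k * h⁻¹ * k⁻¹) * (k * h) := by group
    rw [h1, one_mul] at this
    exact this
  · exact (g.holder_aux hf hh hk h1).elim
  · refine (g.holder_aux hf hk hh ?_).elim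
    have : k * h * k⁻¹ * h⁻¹ = (h * k * h⁻¹ * k⁻¹)⁻¹ := by group
    rw [this]; exact h1

lemma Good.pos_conj (g : Good Q X) {e : Q} (he : Pos X e) (u : Q) : Pos X (u⁻¹ * e * u) := by
  intro x
  have := g.lt u⁻¹ (he (u • x))
  simpa [mul_smul] using this

omit [LinearOrder X] in
lemma free_conj {e : Q} (he : ∀ x : X, e • x ≠ x) (u : Q) (x : X) : (u⁻¹ * e * u) • x ≠ x := by
  intro h
  apply he (u • x)
  have := congrArg (fun t => u • t) h
  simpa [mul_smul] using this

/-- no unipotent non-trivial conjugation action on the centraliser -/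
lemma Good.unip (g : Good Q X) {f y α : Q} (hf : ∀ x : X, f • x ≠ x) (hα : Commute f α)
    (hβ : Commute f (E y α)) (h : E y (E y α) = 1) : E y α = 1 := by
  obtain ⟨p⟩ := g.ne
  set β := E y α with hβdef
  have hyβ : Commute y β := E_eq_one.1 h
  have h1 : y⁻¹ * α * y = α * β := by rw [hβdef]; unfold E; group
  have hn : ∀ m : ℤ, (y ^ m)⁻¹ * α * y ^ m = α * β ^ m := by
    intro m
    induction m using Int.induction_on with
    | zero => simp
    | succ n ih =>
      have e1 : (y ^ ((n : ℤ) + 1))⁻¹ * α * y ^ ((n : ℤ) + 1)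
          = y⁻¹ * ((y ^ (n : ℤ))⁻¹ * α * y ^ (n : ℤ)) * y := by group
      rw [e1, ih]
      have e2 : y⁻¹ * (α * β ^ (n : ℤ)) * y = (y⁻¹ * α * y) * β ^ (n : ℤ) := by
        rw [mul_assoc y⁻¹, mul_assoc α, ← (hyβ.zpow_right n).eq]; group
      rw [e2, h1]; group
    | pred n ih =>
      have e1 : (y ^ (-(n : ℤ) - 1))⁻¹ * α * y ^ (-(n : ℤ) - 1)
          = y * ((y ^ (-(n : ℤ)))⁻¹ * α * y ^ (-(n : ℤ))) * y⁻¹ := by group
      rw [e1, ih]
      have e2 : y * (α * β ^ (-(n : ℤ))) * y⁻¹
          = y * ((α * β) * β ^ (-(n : ℤ) - 1)) * y⁻¹ := by group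
      rw [e2, ← h1]
      have e3 : y * ((y⁻¹ * α * y) * β ^ (-(n : ℤ) - 1)) * y⁻¹
          = α * (y * β ^ (-(n : ℤ) - 1)) * y⁻¹ := by group
      rw [e3, (hyβ.zpow_right _).eq]; group
  have main : ∀ e : Q, Pos X e → (∀ m : ℤ, ∃ m' : ℤ, e ^ m = β ^ m') → False := by
    intro e he hm
    obtain ⟨m, hm1, hm2⟩ := g.sandwich he p (α⁻¹ • p)
    rcases g.tri hf hα with h2 | h2 | h2
    · have hb : β = 1 := by rw [hβdef, h2]; simp [E]
      obtain ⟨m', hm'⟩ := hm 1
      have := he p
      rw [zpow_one, hb, one_zpow] at hm'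
      rw [hm', one_smul] at this
      exact lt_irrefl _ this
    · obtain ⟨m', hm'⟩ := hm m
      have := g.pos_conj h2 (y ^ m') p
      rw [hn, ← hm', mul_smul] at this
      have h3 := g.le α hm1
      rw [smul_inv_smul] at h3
      exact absurd h3 (not_le.2 this)
    · obtain ⟨m', hm'⟩ := hm (m + 1)
      have := g.pos_conj h2 (y ^ m') p
      have e1 : (y ^ m')⁻¹ * α⁻¹ * y ^ m' = ((y ^ m')⁻¹ * α * y ^ m')⁻¹ := by group
      rw [e1, hn, ← hm'] at this
      have h4 := g.lt (α * e ^ (m + 1)) this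
      rw [smul_inv_smul, mul_smul] at h4
      have h3 := g.lt α hm2
      rw [smul_inv_smul] at h3
      exact absurd h3 (not_lt.2 h4.le)
  rcases g.tri hf hβ with h2 | h2 | h2
  · exact h2
  · exact (main β h2 fun m => ⟨m, rfl⟩).elim
  · exact (main β⁻¹ h2 fun m => ⟨-m, by group⟩).elim

lemma Good.lemC' (g : Good Q X) {f y : Q} (hf : ∀ x : X, f • x ≠ x) (hy : Eng y)
    (hc : Commute f (y * f * y⁻¹)) : Commute f y := by
  -- y⁻¹ A y ⊆ A
  have hn : ∀ α : Q, Commute f α → Commute f (E y α) := by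
    intro α hα
    have h1 : Commute (y * f * y⁻¹) α := g.holder hf hc hα
    have h2 : Commute f (y⁻¹ * α * y) := by
      have := h1.eq
      have e : f * (y⁻¹ * α * y) = y⁻¹ * (y * f * y⁻¹ * α) * y := by group
      show f * (y⁻¹ * α * y) = (y⁻¹ * α * y) * f
      rw [e, this]; group
    have e : E y α = α⁻¹ * (y⁻¹ * α * y) := by unfold E; group
    rw [e]; exact hα.inv_right.mul_right h2
  have key : ∀ n α, Commute f α → (E y)^[n] α = 1 → E y α = 1 := by
    intro n
    induction n with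
    | zero => intro α _ h; simp at h; subst h; simp [E]
    | succ n ih =>
      intro α hα h
      rw [Function.iterate_succ_apply] at h
      exact g.unip hf hα (hn α hα) (ih _ (hn α hα) h)
  obtain ⟨n, hn⟩ := hy f
  exact (E_eq_one.1 (key n f (Commute.refl f) hn)).symm

lemma Good.lemC (g : Good Q X) {f y : Q} (hf : ∀ x : X, f • x ≠ x) (hfe : Eng f) (hy : Eng y) :
    Commute f y := by
  have h2 := two_of_descent hfe (fun x hx => g.lemC' hf (hfe.conj x) hx) y⁻¹
  exact g.lemC' hf hy (by simpa using h2)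

end abs

section final
variable {G : Type*} [Group G]

/-- centraliser of the conjugacy class -/
def CC (g : G) : Subgroup G where
  carrier := {y | ∀ x : G, Commute y (x⁻¹ * g * x)}
  one_mem' := fun x => Commute.one_left _
  mul_mem' := fun ha hb x => (ha x).mul_left (hb x)
  inv_mem' := fun ha x => (ha x).inv_left

instance (g : G) : (CC g).Normal where
  conj_mem := by
    intro y hy u x
    have := (hy (x * u)).eq
    show u * y * u⁻¹ * (x⁻¹ * g * x) = (x⁻¹ * g * x) * (u * y * u⁻¹)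
    have e1 : u * y * u⁻¹ * (x⁻¹ * g * x) = u * (y * ((x * u)⁻¹ * g * (x * u))) * u⁻¹ := by group
    rw [e1, this]; group

lemma three_of_two {g h : G} (hg : ∀ x, Commute g (x⁻¹ * g * x))
    (hh : ∀ x, Commute h (x⁻¹ * h * x)) (x : G) : (E (g * h))^[3] x = 1 := by
  have a : ∀ u v w : G, u ∈ CC u → (∀ x, Commute v (x⁻¹ * v * x)) →
      QuotientGroup.mk' (CC u) w = QuotientGroup.mk' (CC u) v →
      Commute u (E w (E w x)) := by
    intro u v w _ hv hw
    have : QuotientGroup.mk' (CC u) (E w (E w x)) = 1 := by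
      rw [map_E, map_E, hw, ← map_E, ← map_E, E_E_eq_one.2 (hv x), map_one]
    have h2 : E w (E w x) ∈ CC u := (QuotientGroup.eq_one_iff _).1 this
    have h3 := h2 1
    simpa using h3.symm
  have hg' : g ∈ CC g := hg
  have hh' : h ∈ CC h := hh
  have h1 := a g h (g * h) hg' hh (by
    rw [map_mul]
    have : QuotientGroup.mk' (CC g) g = 1 := (QuotientGroup.eq_one_iff _).2 hg'
    rw [this, one_mul])
  have h2 := a h g (g * h) hh' hg (by
    rw [map_mul]
    have : QuotientGroup.mk' (CC h) h = 1 := (QuotientGroup.eq_one_iff _).2 hh'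
    rw [this, mul_one])
  show E (g * h) (E (g * h) (E (g * h) x)) = 1
  exact E_eq_one.2 (h1.mul_left h2)

lemma subgroup_of_two (H : ∀ g : G, Eng g → ∀ x, Commute g (x⁻¹ * g * x)) :
    ∃ S : Subgroup G, (S : Set G) = {g | ∃ n : ℕ, ∀ x, (E g)^[n] x = 1} := by
  have b : ∀ g : G, (∃ n : ℕ, ∀ x, (E g)^[n] x = 1) → Eng g := fun g ⟨n, hn⟩ x => ⟨n, hn x⟩
  refine ⟨{ carrier := {g | ∃ n : ℕ, ∀ x, (E g)^[n] x = 1}
            one_mem' := ⟨1, fun x => by simp [E]⟩
            mul_mem' := fun ha hb => ⟨3, three_of_two (H _ (b _ ha)) (H _ (b _ hb))⟩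
            inv_mem' := fun {g} ha => ⟨2, fun x => ?_⟩ }, rfl⟩
  show E g⁻¹ (E g⁻¹ x) = 1
  rw [E_E_eq_one]
  have := (H _ (b _ ha) x).inv_inv
  have e : x⁻¹ * g⁻¹ * x = (x⁻¹ * g * x)⁻¹ := by group
  rw [e]; exact this

end final

end Pool.Agent.MP_f21dda_al
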