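import Mathlib

namespace Pool.Agent.MP_f21dda_al
open Set

/-- bounded distortion of `φ` on `[s,t]` -/
def Dist (φ : ℝ → ℝ) (s t K : ℝ) : Prop :=
  ∀ x y x' y', s ≤ x → x < y → y ≤ t → s ≤ x' → x' < y' → y' ≤ t →
    (φ y - φ x) * (y' - x') ≤ K * ((φ y' - φ x') * (y - x))

lemma Dist.comp {φ ψ : ℝ → ℝ} {s t K K' : ℝ} (hφ : StrictMono φ) (hψ : StrictMono ψ)
    (h1 : Dist φ s t K) (h2 : Dist ψ (φ s) (φ t) K') (hK' : 0 ≤ K') :
    Dist (fun x => ψ (φ x)) s t (K' * K) := by
  intro x y x' y' a1 a2 a3 a4 a5 a6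
  have b1 := h1 x y x' y' a1 a2 a3 a4 a5 a6
  have b2 := h2 (φ x) (φ y) (φ x') (φ y') (hφ.monotone a1) (hφ a2) (hφ.monotone a3)
    (hφ.monotone a4) (hφ a5) (hφ.monotone a6)
  have p1 : 0 < φ y' - φ x' := sub_pos.2 (hφ a5)
  have p2 : 0 < ψ (φ y') - ψ (φ x') := sub_pos.2 (hψ (hφ a5))
  have p3 : 0 < y' - x' := sub_pos.2 a5
  refine le_of_mul_le_mul_right ?_ p1
  calc (ψ (φ y) - ψ (φ x)) * (y' - x') * (φ y' - φ x')
      = (ψ (φ y) - ψ (φ x)) * (φ y' - φ x') * (y' - x') := by ring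
    _ ≤ K' * ((ψ (φ y') - ψ (φ x')) * (φ y - φ x)) * (y' - x') :=
        mul_le_mul_of_nonneg_right b2 p3.le
    _ = K' * (ψ (φ y') - ψ (φ x')) * ((φ y - φ x) * (y' - x')) := by ring
    _ ≤ K' * (ψ (φ y') - ψ (φ x')) * (K * ((φ y' - φ x') * (y - x))) :=
        mul_le_mul_of_nonneg_left b1 (mul_nonneg hK' p2.le)
    _ = K' * K * ((ψ (φ y') - ψ (φ x')) * (y - x)) * (φ y' - φ x') := by ring

lemma Dist.inv {φ ψ : ℝ → ℝ} {s t K : ℝ} (hψ : StrictMono ψ) (h : ∀ x, φ (ψ x) = x)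
    (h' : ∀ x, ψ (φ x) = x) (h1 : Dist φ s t K) : Dist ψ (φ s) (φ t) K := by
  intro x y x' y' a1 a2 a3 a4 a5 a6
  have c1 := hψ.monotone a1
  have c3 := hψ.monotone a3
  have c4 := hψ.monotone a4
  have c6 := hψ.monotone a6
  rw [h'] at c1 c3 c4 c6
  have b1 := h1 (ψ x') (ψ y') (ψ x) (ψ y) c4 (hψ a5) c6 c1 (hψ a2) c3
  simp only [h] at b1
  nlinarith [b1]

lemma Dist.congr {φ ψ : ℝ → ℝ} {s t K : ℝ} (h : ∀ x, s ≤ x → x ≤ t → φ x = ψ x)
    (h1 : Dist φ s t K) : Dist ψ s t K := by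
  intro x y x' y' a1 a2 a3 a4 a5 a6
  rw [← h x a1 (a2.le.trans a3), ← h y (a1.trans a2.le) a3, ← h x' a4 (a5.le.trans a6),
    ← h y' (a4.trans a5.le) a6]
  exact h1 x y x' y' a1 a2 a3 a4 a5 a6

lemma Dist.mono {φ : ℝ → ℝ} {s t K K' : ℝ} (hφ : StrictMono φ) (h1 : Dist φ s t K) (h : K ≤ K') :
    Dist φ s t K' := by
  intro x y x' y' a1 a2 a3 a4 a5 a6
  refine (h1 x y x' y' a1 a2 a3 a4 a5 a6).trans (mul_le_mul_of_nonneg_right h ?_)
  exact mul_nonneg (sub_pos.2 (hφ a5)).le (sub_pos.2 a2).le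

lemma dist_id (s t : ℝ) : Dist (fun x => x) s t 1 := by
  intro x y x' y' _ _ _ _ _ _
  nlinarith

lemma local_dist {φ ψ : ℝ → ℝ} {a ε₀ ε₁ : ℝ} (hφ : StrictMono φ) (hc : Continuous φ)
    (h' : ∀ x, ψ (φ x) = x) (h0 : 0 < ε₀) (h1 : 0 < ε₁)
    (hd : ContDiffOn ℝ 2 φ (Icc a (a + ε₀))) (hd' : ContDiffOn ℝ 2 ψ (Icc (φ a) (φ a + ε₁))) :
    ∃ ε > 0, ∃ L ≥ 0, ∀ s t, a ≤ s → t ≤ a + ε → Dist φ s t (Real.exp (L * (t - s))) := by
  have hu : UniqueDiffOn ℝ (Icc a (a + ε₀)) := uniqueDiffOn_Icc (by linarith)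
  have hd1 : ContDiffOn ℝ 1 (derivWithin φ (Icc a (a + ε₀))) (Icc a (a + ε₀)) :=
    hd.derivWithin hu (by norm_num)
  obtain ⟨M, hM⟩ := hd1.exists_lipschitzOnWith (by norm_num) (convex_Icc _ _) isCompact_Icc
  obtain ⟨M', hM'⟩ := hd'.exists_lipschitzOnWith (by norm_num) (convex_Icc _ _) isCompact_Icc
  obtain ⟨δ, hδ, hδ2⟩ := Metric.continuous_iff.1 hc a ε₁ h1
  refine ⟨min ε₀ (δ / 2), lt_min h0 (by linarith), M * M', by positivity, ?_⟩
  intro s t hs ht x y x' y' a1 a2 a3 a4 a5 a6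
  have m1 : min ε₀ (δ / 2) ≤ ε₀ := min_le_left _ _
  have m2 : min ε₀ (δ / 2) ≤ δ / 2 := min_le_right _ _
  have mvt : ∀ u v, s ≤ u → u < v → v ≤ t → ∃ c, s ≤ c ∧ c ≤ t ∧
      derivWithin φ (Icc a (a + ε₀)) c = (φ v - φ u) / (v - u) := by
    intro u v b1 b2 b3
    have hsub : ∀ c ∈ Ioo u v, Icc a (a + ε₀) ∈ nhds c := fun c hc =>
      Icc_mem_nhds (by linarith [hc.1]) (by linarith [hc.2])
    obtain ⟨c, hc1, hc2⟩ := exists_deriv_eq_slope φ b2 hc.continuousOn (by
      intro c hc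
      exact ((hd.differentiableOn (by norm_num)).differentiableAt (hsub c hc)).differentiableWithinAt)
    refine ⟨c, by linarith [hc1.1], by linarith [hc1.2], ?_⟩
    rw [derivWithin_of_mem_nhds (hsub c hc1), hc2]
  obtain ⟨c, c1, c2, c3⟩ := mvt x y a1 a2 a3
  obtain ⟨c', c1', c2', c3'⟩ := mvt x' y' a4 a5 a6
  have hl := hM.dist_le_mul c ⟨by linarith, by linarith⟩ c' ⟨by linarith, by linarith⟩
  rw [c3, c3', Real.dist_eq, Real.dist_eq] at hl
  have hcc : |c - c'| ≤ t - s := abs_le.2 ⟨by linarith, by linarith⟩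
  have hin : ∀ u, s ≤ u → u ≤ t → φ u ∈ Icc (φ a) (φ a + ε₁) := by
    intro u b1 b2
    refine ⟨hφ.monotone (by linarith), ?_⟩
    have := hδ2 u (by rw [Real.dist_eq, abs_lt]; constructor <;> linarith)
    rw [Real.dist_eq, abs_lt] at this
    linarith [this.2]
  have hl' := hM'.dist_le_mul (φ y') (hin y' (by linarith) a6) (φ x') (hin x' a4 (by linarith))
  have p1 : 0 < φ y' - φ x' := sub_pos.2 (hφ a5)
  have p2 : 0 < y' - x' := sub_pos.2 a5
  have p3 : 0 < y - x := sub_pos.2 a2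
  rw [h', h', Real.dist_eq, Real.dist_eq, abs_of_pos p1, abs_of_pos p2] at hl'
  set A := (φ y - φ x) / (y - x) with hA
  set B := (φ y' - φ x') / (y' - x') with hB
  have hB1 : 1 ≤ M' * B := by
    rw [hB, ← mul_div_assoc, le_div_iff₀ p2]; linarith
  have hM0 : (0 : ℝ) ≤ M := M.2
  have hts : 0 ≤ t - s := by linarith
  have hAB : A ≤ B + M * (t - s) := by
    have := (abs_le.1 (hl.trans (mul_le_mul_of_nonneg_left hcc hM0))).2
    linarith
  have hB0 : 0 ≤ B := by rw [hB]; positivity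
  have hA2 : A ≤ Real.exp (M * M' * (t - s)) * B := by
    have e1 := Real.add_one_le_exp (M * M' * (t - s))
    have e2 : M * (t - s) ≤ M * (t - s) * (M' * B) :=
      le_mul_of_one_le_right (mul_nonneg hM0 hts) hB1
    calc A ≤ B + M * (t - s) * (M' * B) := by linarith
      _ = (M * M' * (t - s) + 1) * B := by ring
      _ ≤ _ := mul_le_mul_of_nonneg_right e1 hB0
  have e1 : φ y - φ x = A * (y - x) := by rw [hA]; field_simp
  have e2 : φ y' - φ x' = B * (y' - x') := by rw [hB]; field_simp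
  rw [e1, e2]
  have := mul_le_mul_of_nonneg_right hA2 (mul_pos p3 p2).le
  nlinarith [this]

section act
variable {G : Type*} [Group G] [MulAction G ℝ]

variable (G) in
/-- order preserving action by maps that are `C²` on the right of each point -/
structure Reg : Prop where
  mono : ∀ g : G, StrictMono fun x : ℝ => g • x
  reg : ∀ (g : G) (x : ℝ), ∃ ε > 0, ContDiffOn ℝ 2 (fun t : ℝ => g • t) (Icc x (x + ε))

lemma cont_of_mono (hm : ∀ g : G, StrictMono fun x : ℝ => g • x) (g : G) :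
    Continuous fun x : ℝ => g • x :=
  ((hm g).orderIsoOfSurjective _ (MulAction.surjective g)).continuous

lemma Reg.loc (R : Reg G) (g : G) (a : ℝ) :
    ∃ ε > 0, ∃ L ≥ 0, ∀ s t, a ≤ s → t ≤ a + ε →
      Dist (fun x : ℝ => g • x) s t (Real.exp (L * (t - s))) := by
  obtain ⟨ε₀, h0, hd⟩ := R.reg g a
  obtain ⟨ε₁, h1, hd'⟩ := R.reg g⁻¹ (g • a)
  exact local_dist (ψ := fun x : ℝ => g⁻¹ • x) (R.mono g) (cont_of_mono R.mono g)
    (fun x => inv_smul_smul g x) h0 h1 hd hd'

/-- `(a,b)` is a component of the set of points moved by `f` -/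
structure Comp (f : G) (a b : ℝ) : Prop where
  lt : a < b
  fa : f • a = a
  fb : f • b = b
  free : ∀ x, a < x → x < b → f • x ≠ x

lemma maps_Ioo (hm : ∀ g : G, StrictMono fun x : ℝ => g • x) {h : G} {a b x : ℝ}
    (ha : h • a = a) (hb : h • b = b) (h1 : a < x) (h2 : x < b) : a < h • x ∧ h • x < b :=
  ⟨ha ▸ hm h h1, hb ▸ hm h h2⟩

lemma pow_fix {h : G} {a : ℝ} (ha : h • a = a) (n : ℕ) : h ^ n • a = a := by
  induction n with
  | zero => simp
  | succ n ih => rw [pow_succ, mul_smul, ha, ih]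

lemma inv_fix {h : G} {a : ℝ} (ha : h • a = a) : h⁻¹ • a = a := by
  conv_lhs => rw [← ha]
  exact inv_smul_smul h a

lemma Comp.inv {f : G} {a b : ℝ} (c : Comp f a b) : Comp f⁻¹ a b where
  lt := c.lt
  fa := inv_fix c.fa
  fb := inv_fix c.fb
  free := fun x h1 h2 h => c.free x h1 h2 (by simpa using inv_fix h)

lemma Comp.sign (hm : ∀ g : G, StrictMono fun x : ℝ => g • x) {f : G} {a b : ℝ}
    (c : Comp f a b) : (∀ x, a < x → x < b → x < f • x) ∨ (∀ x, a < x → x < b → f • x < x) := by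
  by_contra hcon
  push Not at hcon
  obtain ⟨⟨x, x1, x2, x3⟩, ⟨y, y1, y2, y3⟩⟩ := hcon
  have hc : Continuous fun x : ℝ => f • x - x := (cont_of_mono hm f).sub continuous_id
  have := intermediate_value_uIcc (a := x) (b := y) hc.continuousOn
  obtain ⟨z, hz, hz2⟩ := this (show (0 : ℝ) ∈ uIcc (f • x - x) (f • y - y) from
    mem_uIcc_of_le (by linarith) (by linarith))
  have z1 : a < z := lt_of_lt_of_le (lt_min x1 y1) hz.1
  have z2 : z < b := lt_of_le_of_lt hz.2 (max_lt x2 y2)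
  exact c.free z z1 z2 (by simpa [sub_eq_zero] using hz2)

lemma Comp.arch_down (hm : ∀ g : G, StrictMono fun x : ℝ => g • x) {f : G} {a b : ℝ}
    (c : Comp f a b) (hs : ∀ x, a < x → x < b → f • x < x) {x y : ℝ} (x1 : a < x) (x2 : x < b)
    (y1 : a < y) : ∃ n : ℕ, f ^ n • x < y := by
  by_contra hcon
  push Not at hcon
  set S := range fun n : ℕ => f ^ n • x with hS
  have hb : BddBelow S := ⟨y, by rintro _ ⟨n, rfl⟩; exact hcon n⟩
  have hne : S.Nonempty := range_nonempty _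
  set l := sInf S with hl
  have l1 : y ≤ l := le_csInf hne (by rintro _ ⟨n, rfl⟩; exact hcon n)
  have l2 : l ≤ x := csInf_le hb ⟨0, by simp⟩
  have l3 : f • l < l := hs l (by linarith) (by linarith)
  have l4 : l < f⁻¹ • l := by simpa using hm f⁻¹ l3
  obtain ⟨_, ⟨n, rfl⟩, hn⟩ := exists_lt_of_csInf_lt hne l4
  have l5 : l ≤ f ^ (n + 1) • x := csInf_le hb ⟨n + 1, rfl⟩
  have := hm f hn
  simp only [smul_inv_smul] at this
  rw [pow_succ', mul_smul] at l5
  linarith

lemma Comp.arch_up (hm : ∀ g : G, StrictMono fun x : ℝ => g • x) {f : G} {a b : ℝ}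
    (c : Comp f a b) (hs : ∀ x, a < x → x < b → x < f • x) {x y : ℝ} (x1 : a < x) (x2 : x < b)
    (y1 : a < y) (y2 : y < b) : ∃ n : ℕ, y < f ^ n • x := by
  obtain ⟨n, hn⟩ := c.inv.arch_down hm (fun t t1 t2 => by simpa using hm f⁻¹ (hs t t1 t2)) y1 y2 x1
  refine ⟨n, ?_⟩
  have := hm (f ^ n) hn
  simpa using this

lemma comm_pow (hm : ∀ g : G, StrictMono fun x : ℝ => g • x) {f h : G} {a b : ℝ}
    (fa : f • a = a) (fb : f • b = b) (hc : ∀ x, a < x → x < b → h • f • x = f • h • x) (n : ℕ) :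
    ∀ x, a < x → x < b → h • f ^ n • x = f ^ n • h • x := by
  induction n with
  | zero => simp
  | succ n ih =>
    intro x x1 x2
    have := maps_Ioo hm fa fb x1 x2
    rw [pow_succ, mul_smul, mul_smul, ih _ this.1 this.2, hc x x1 x2]

lemma comm_inv (hm : ∀ g : G, StrictMono fun x : ℝ => g • x) {f h : G} {a b : ℝ}
    (fa : f • a = a) (fb : f • b = b) (hc : ∀ x, a < x → x < b → h • f • x = f • h • x) :
    ∀ x, a < x → x < b → h • f⁻¹ • x = f⁻¹ • h • x := by
  intro x x1 x2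
  have := maps_Ioo hm (inv_fix fa) (inv_fix fb) x1 x2
  have h2 := hc _ this.1 this.2
  rw [smul_inv_smul] at h2
  rw [h2, inv_smul_smul]

lemma Reg.kopell_aux (R : Reg G) {f h : G} {a b p q : ℝ} (c : Comp f a b)
    (hs : ∀ x, a < x → x < b → f • x < x) (ha : h • a = a) (hb : h • b = b)
    (hc : ∀ x, a < x → x < b → h • f • x = f • h • x) (p1 : a < p) (p2 : p < b) (hp : h • p = p)
    (q1 : a < q) (q2 : q < b) (hq : q < h • q) : False := by
  have hm := R.mono
  obtain ⟨ε, hε, L, hL, hf⟩ := R.loc f a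
  obtain ⟨ε', hε', L', hL', hh⟩ := R.loc h a
  obtain ⟨N, hN⟩ := c.arch_down hm hs p1 p2 (y := min q (min (a + ε) (a + ε')))
    (lt_min q1 (lt_min (by linarith) (by linarith)))
  set r := f ^ N • p with hr
  have hin : ∀ (n : ℕ) (x : ℝ), a < x → x < b → a < f ^ n • x ∧ f ^ n • x < b := fun n x x1 x2 =>
    maps_Ioo hm (pow_fix c.fa n) (pow_fix c.fb n) x1 x2
  have r1 : a < r := (hin N p p1 p2).1
  have r2 : r < b := (hin N p p1 p2).2
  have rq : r < q := hN.trans_le (min_le_left _ _)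
  have re : r < a + ε := hN.trans_le ((min_le_right _ _).trans (min_le_left _ _))
  have re' : r < a + ε' := hN.trans_le ((min_le_right _ _).trans (min_le_right _ _))
  have hrf : h • r = r := by rw [hr, comm_pow hm c.fa c.fb hc N p p1 p2, hp]
  have hrn : ∀ n : ℕ, h • f ^ n • r = f ^ n • r := fun n => by
    rw [comm_pow hm c.fa c.fb hc n r r1 r2, hrf]
  have hdec : ∀ n : ℕ, f ^ (n + 1) • r < f ^ n • r := fun n => by
    rw [pow_succ', mul_smul]; exact hs _ (hin n r r1 r2).1 (hin n r r1 r2).2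
  have hle : ∀ n : ℕ, f ^ n • r ≤ r := fun n => by
    have := (antitone_nat_of_succ_le (f := fun n : ℕ => f ^ n • r) fun n => (hdec n).le)
      (Nat.zero_le n)
    simpa using this
  -- move q into the fundamental domain
  have hex := c.arch_down hm hs q1 q2 r1
  classical
  set j := Nat.find hex with hj
  have j1 : f ^ j • q < r := Nat.find_spec hex
  have j0 : j ≠ 0 := by
    intro h0
    rw [h0] at j1
    simp at j1
    linarith
  obtain ⟨i, hi⟩ := Nat.exists_eq_succ_of_ne_zero j0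
  have j2 : r ≤ f ^ i • q := by
    have := Nat.find_min hex (m := i) (by omega)
    exact not_lt.1 this
  set u := f ^ j • q with hu
  have u1 : f • r ≤ u := by
    rw [hu, hi, pow_succ', mul_smul]; exact (hm f).monotone j2
  have hfr : a < f • r := (maps_Ioo hm c.fa c.fb r1 r2).1
  have hfr2 : f • r < r := hs r r1 r2
  have hhfr : h • f • r = f • r := by simpa using hrn 1
  have u2 : u < h • u := by
    rw [hu, comm_pow hm c.fa c.fb hc j q q1 q2]; exact hm _ hq
  -- distortion of powers of f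
  have df : ∀ n : ℕ, Dist (fun x : ℝ => f ^ n • x) (f • r) r (Real.exp (L * (r - f ^ n • r))) := by
    intro n
    induction n with
    | zero => simpa using dist_id (f • r) r
    | succ n ih =>
      have e1 : f ^ n • f • r = f ^ (n + 1) • r := by rw [pow_succ, mul_smul]
      have d2 := hf (f ^ n • f • r) (f ^ n • r) (by rw [e1]; exact (hin _ r r1 r2).1.le)
        ((hle n).trans re.le)
      have := Dist.comp (hm (f ^ n)) (hm f) ih d2 (Real.exp_pos _).le
      rw [← Real.exp_add] at this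
      have e2 : L * (f ^ n • r - f ^ n • f • r) + L * (r - f ^ n • r) = L * (r - f ^ (n + 1) • r) := by
        rw [e1]; ring
      rw [e2] at this
      refine Dist.congr (fun x _ _ => ?_) this
      rw [pow_succ', mul_smul]
  have df' : ∀ n : ℕ, Dist (fun x : ℝ => f ^ n • x) (f • r) r (Real.exp (L * ε)) := fun n =>
    (df n).mono (hm _) (Real.exp_le_exp.2 (mul_le_mul_of_nonneg_left
      (by linarith [(hin n r r1 r2).1]) hL))
  -- distortion of powers of h on small intervals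
  have dh : ∀ n m : ℕ, Dist (fun x : ℝ => h ^ m • x) (f ^ n • f • r) (f ^ n • r)
      (Real.exp (m * (L' * (f ^ n • r - f ^ n • f • r)))) := by
    intro n m
    have e1 : f ^ n • f • r = f ^ (n + 1) • r := by rw [pow_succ, mul_smul]
    induction m with
    | zero => simpa using dist_id _ _
    | succ m ih =>
      have d2 := hh (f ^ n • f • r) (f ^ n • r) (by rw [e1]; exact (hin _ r r1 r2).1.le)
        ((hle n).trans re'.le)
      have f1 : h ^ m • f ^ n • f • r = f ^ n • f • r := pow_fix (by rw [e1]; exact hrn _) m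
      have f2 : h ^ m • f ^ n • r = f ^ n • r := pow_fix (hrn _) m
      have := Dist.comp (ψ := fun x : ℝ => h • x) (hm (h ^ m)) (hm h) ih
        (by simpa only [f1, f2] using d2) (Real.exp_pos _).le
      rw [← Real.exp_add] at this
      have e2 : L' * (f ^ n • r - f ^ n • f • r) + m * (L' * (f ^ n • r - f ^ n • f • r))
          = ((m + 1 : ℕ) : ℝ) * (L' * (f ^ n • r - f ^ n • f • r)) := by push_cast; ring
      rw [e2] at this
      refine Dist.congr (fun x _ _ => ?_) this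
      rw [pow_succ', mul_smul]
  set K := Real.exp (L * ε) * (Real.exp 1 * Real.exp (L * ε)) with hK
  have K0 : 0 < K := by positivity
  have dK : ∀ m : ℕ, Dist (fun x : ℝ => h ^ m • x) (f • r) r K := by
    intro m
    have hpos : 0 < 1 / (m * L' + 1) := by positivity
    obtain ⟨n, hn⟩ := c.arch_down hm hs r1 r2 (y := a + 1 / (m * L' + 1)) (by linarith)
    have e1 : f ^ n • f • r = f ^ (n + 1) • r := by rw [pow_succ, mul_smul]
    have small : m * (L' * (f ^ n • r - f ^ n • f • r)) ≤ 1 := by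
      have t1 : f ^ n • r - f ^ n • f • r ≤ 1 / (m * L' + 1) := by
        rw [e1]; linarith [(hin (n + 1) r r1 r2).1]
      have t2 : (0 : ℝ) ≤ m * L' := by positivity
      calc (m : ℝ) * (L' * (f ^ n • r - f ^ n • f • r))
          = m * L' * (f ^ n • r - f ^ n • f • r) := by ring
        _ ≤ m * L' * (1 / (m * L' + 1)) := mul_le_mul_of_nonneg_left t1 t2
        _ ≤ 1 := by rw [mul_one_div, div_le_one (by linarith)]; linarith
    have d1 := (dh n m).mono (hm _) (Real.exp_le_exp.2 small)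
    have d2 := Dist.comp (ψ := fun x : ℝ => h ^ m • x) (hm (f ^ n)) (hm _) (df' n) d1
      (Real.exp_pos _).le
    have d3 := Dist.inv (ψ := fun x : ℝ => (f ^ n)⁻¹ • x) (hm _) (fun x => smul_inv_smul _ x)
      (fun x => inv_smul_smul _ x) (df' n)
    have f1 : h ^ m • f ^ n • f • r = f ^ n • f • r := pow_fix (by rw [e1]; exact hrn _) m
    have f2 : h ^ m • f ^ n • r = f ^ n • r := pow_fix (hrn _) m
    have d4 := Dist.comp (ψ := fun x : ℝ => (f ^ n)⁻¹ • x) ((hm (h ^ m)).comp (hm (f ^ n))) (hm _) d2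
      (by simpa only [Function.comp, f1, f2] using d3) (Real.exp_pos _).le
    refine Dist.congr (fun x x1 x2 => ?_) d4
    have hc' : ∀ x, a < x → x < b → f ^ n • h • x = h • f ^ n • x := fun x x1 x2 =>
      (comm_pow hm c.fa c.fb hc n x x1 x2).symm
    have := comm_pow hm ha hb hc' m x (by linarith) (by linarith)
    simp only [Function.comp]
    rw [← this, inv_smul_smul]
  -- contradiction
  have hur : h • u ≤ r := by rw [← hrf]; exact (hm h).monotone j1.le
  have low : ∀ m : ℕ, (h • u - u) / K ≤ h ^ (m + 1) • u - h ^ m • u := by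
    intro m
    have := dK m (f • r) r u (h • u) le_rfl hfr2 le_rfl u1 u2 hur
    simp only [pow_fix hrf m, pow_fix hhfr m] at this
    rw [pow_succ, mul_smul, div_le_iff₀ K0]
    have p0 : 0 < r - f • r := by linarith
    refine le_of_mul_le_mul_right ?_ p0
    nlinarith [this]
  have grow : ∀ m : ℕ, u + m * ((h • u - u) / K) ≤ h ^ m • u := by
    intro m
    induction m with
    | zero => simp
    | succ m ih => have := low m; push_cast; linarith
  have hpos : 0 < (h • u - u) / K := div_pos (by linarith) K0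
  obtain ⟨m, hm2⟩ := exists_nat_gt ((r - u) / ((h • u - u) / K))
  rw [div_lt_iff₀ hpos] at hm2
  have g1 := grow m
  have g2 : h ^ m • u ≤ r := by
    rw [← pow_fix hrf m]; exact (hm _).monotone j1.le
  linarith

/-- Kopell's lemma -/
lemma Reg.kopell (R : Reg G) {f h : G} {a b p : ℝ} (c : Comp f a b)
    (ha : h • a = a) (hb : h • b = b)
    (hc : ∀ x, a < x → x < b → h • f • x = f • h • x) (p1 : a < p) (p2 : p < b) (hp : h • p = p)
    {q : ℝ} (q1 : a < q) (q2 : q < b) : h • q = q := by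
  have hm := R.mono
  have key : ∀ f : G, Comp f a b → (∀ x, a < x → x < b → f • x < x) →
      (∀ x, a < x → x < b → h • f • x = f • h • x) → h • q = q := by
    intro f c hs hc
    rcases lt_trichotomy q (h • q) with h1 | h1 | h1
    · exact (R.kopell_aux c hs ha hb hc p1 p2 hp q1 q2 h1).elim
    · exact h1.symm
    · refine (R.kopell_aux c hs (inv_fix ha) (inv_fix hb) ?_ p1 p2 (inv_fix hp) q1 q2 ?_).elim
      · intro x x1 x2
        exact (comm_inv hm ha hb (fun x x1 x2 => (hc x x1 x2).symm) x x1 x2).symm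
      · simpa using hm h⁻¹ h1
  rcases c.sign hm with hs | hs
  · exact key f⁻¹ c.inv (fun t t1 t2 => by simpa using hm f⁻¹ (hs t t1 t2))
      (comm_inv hm c.fa c.fb hc)
  · exact key f c hs hc

end act

end Pool.Agent.MP_f21dda_al
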