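import Pool.Agent.MP_f21dda_al.Abs
import Pool.Agent.MP_f21dda_al.Kopell

namespace Pool.Agent.MP_f21dda_al
open Set

variable {G : Type*} [Group G] [MulAction G ℝ]

lemma exists_comp (hm : ∀ g : G, StrictMono fun x : ℝ => g • x)
    (hfix : ∀ (g : G) (x : ℝ), x ≤ 0 ∨ 1 ≤ x → g • x = x) {g : G} {x : ℝ} (hx : g • x ≠ x) :
    ∃ a b, a < x ∧ x < b ∧ Comp g a b := by
  have hcl : IsClosed {t : ℝ | g • t = t} := isClosed_eq (cont_of_mono hm g) continuous_id
  set A := {t : ℝ | g • t = t} ∩ Iic x with hA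
  set B := {t : ℝ | g • t = t} ∩ Ici x with hB
  have An : A.Nonempty := ⟨min x 0, hfix _ _ (Or.inl (min_le_right _ _)), mem_Iic.2 (min_le_left _ _)⟩
  have Bn : B.Nonempty := ⟨max x 1, hfix _ _ (Or.inr (le_max_right _ _)), mem_Ici.2 (le_max_left _ _)⟩
  have Ab : BddAbove A := ⟨x, fun t ht => ht.2⟩
  have Bb : BddBelow B := ⟨x, fun t ht => ht.2⟩
  have ha : sSup A ∈ A := (hcl.inter isClosed_Iic).csSup_mem An Ab
  have hb : sInf B ∈ B := (hcl.inter isClosed_Ici).csInf_mem Bn Bb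
  have a1 : sSup A < x := lt_of_le_of_ne ha.2 (fun h => hx (by have := ha.1; rw [h] at this; exact this))
  have b1 : x < sInf B := lt_of_le_of_ne hb.2 (fun h => hx (by have := hb.1; rw [← h] at this; exact this))
  refine ⟨sSup A, sInf B, a1, b1, ⟨a1.trans b1, ha.1, hb.1, fun t t1 t2 ht => ?_⟩⟩
  rcases le_total t x with h | h
  · exact absurd (le_csSup Ab ⟨ht, h⟩) (not_le.2 t1)
  · exact absurd (csInf_le Bb ⟨ht, h⟩) (not_le.2 t2)

lemma Comp.conj (hm : ∀ g : G, StrictMono fun x : ℝ => g • x) {f : G} {a b : ℝ} (c : Comp f a b)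
    (u : G) : Comp (u * f * u⁻¹) (u • a) (u • b) where
  lt := hm u c.lt
  fa := by simp [mul_smul, c.fa]
  fb := by simp [mul_smul, c.fb]
  free := by
    intro x x1 x2 h
    have y1 := hm u⁻¹ x1
    have y2 := hm u⁻¹ x2
    simp only [inv_smul_smul] at y1 y2
    apply c.free _ y1 y2
    have := congrArg (fun t => u⁻¹ • t) h
    simpa [mul_smul] using this

/-- two overlapping intervals, neither containing an endpoint of the other, coincide -/
lemma ends_eq {a b c d x : ℝ} (h1 : a < x) (h2 : x < b) (h3 : c < x) (h4 : x < d)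
    (n1 : ¬ (a < c ∧ c < b)) (n2 : ¬ (a < d ∧ d < b)) (n3 : ¬ (c < a ∧ a < d))
    (n4 : ¬ (c < b ∧ b < d)) : a = c ∧ b = d := by
  constructor
  · rcases lt_trichotomy a c with h | h | h
    · exact (n1 ⟨h, by linarith⟩).elim
    · exact h
    · exact (n3 ⟨h, by linarith⟩).elim
  · rcases lt_trichotomy b d with h | h | h
    · exact (n4 ⟨by linarith, h⟩).elim
    · exact h
    · exact (n2 ⟨by linarith, h⟩).elim

/-- the subgroup fixing `a` and `b` -/
def St (G : Type*) [Group G] [MulAction G ℝ] (a b : ℝ) : Subgroup G :=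
  MulAction.stabilizer G a ⊓ MulAction.stabilizer G b

/-- its action on `(a,b)` -/
@[reducible] def resAct (hm : ∀ g : G, StrictMono fun x : ℝ => g • x) (a b : ℝ) : MulAction (St G a b) (Ioo a b) where
  smul s x := ⟨(s : G) • (x : ℝ), maps_Ioo hm s.2.1 s.2.2 x.2.1 x.2.2⟩
  one_smul x := Subtype.ext (one_smul G (x : ℝ))
  mul_smul s t x := Subtype.ext (mul_smul (s : G) (t : G) (x : ℝ))

/-- restriction homomorphism -/
def res (hm : ∀ g : G, StrictMono fun x : ℝ => g • x) (a b : ℝ) : St G a b →* Equiv.Perm (Ioo a b) :=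
  @MulAction.toPermHom _ _ _ (resAct hm a b)

lemma res_apply (hm : ∀ g : G, StrictMono fun x : ℝ => g • x) (a b : ℝ) (s : St G a b)
    (x : Ioo a b) : ((res hm a b s x : Ioo a b) : ℝ) = (s : G) • (x : ℝ) := rfl

lemma Reg.good (R : Reg G) {a b : ℝ} (hab : a < b) : Good (res R.mono a b).range (Ioo a b) := by
  have hm := R.mono
  have cmp : ∀ s : St G a b, (∀ x : Ioo a b, res hm a b s x ≠ x) → Comp (s : G) a b := fun s hs =>
    ⟨hab, s.2.1, s.2.2, fun x x1 x2 h => hs ⟨x, x1, x2⟩ (Subtype.ext h)⟩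
  refine ⟨⟨⟨(a + b) / 2, by linarith, by linarith⟩⟩, ?_, ?_, ?_, ?_, ?_⟩
  · rintro ⟨_, s, rfl⟩ x y h
    exact hm (s : G) h
  · rintro ⟨_, s, rfl⟩ h
    exact Subtype.ext (Equiv.ext h)
  · rintro ⟨_, s, rfl⟩ h
    rcases (cmp s h).sign hm with h1 | h1
    · exact Or.inl fun x => h1 x x.2.1 x.2.2
    · exact Or.inr fun x => h1 x x.2.1 x.2.2
  · rintro ⟨_, s, rfl⟩ h x y
    have c := cmp s fun x => (h x).ne'
    obtain ⟨n, hn⟩ := c.arch_up hm (fun t t1 t2 => h ⟨t, t1, t2⟩) x.2.1 x.2.2 y.2.1 y.2.2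
    refine ⟨n, ?_⟩
    have e : (⟨res hm a b s, s, rfl⟩ : (res hm a b).range) ^ n = ⟨res hm a b (s ^ n), s ^ n, rfl⟩ :=
      Subtype.ext (by simp)
    rw [e]
    exact hn
  · rintro ⟨_, s, rfl⟩ ⟨_, t, rfl⟩ h hc ⟨p, hp⟩
    have c := cmp s h
    refine Subtype.ext (Equiv.ext fun q => Subtype.ext ?_)
    refine R.kopell c t.2.1 t.2.2 (fun x x1 x2 => ?_) p.2.1 p.2.2 (congrArg Subtype.val hp) q.2.1 q.2.2
    have := congrArg (fun u : (res hm a b).range => ((u • (⟨x, x1, x2⟩ : Ioo a b) : Ioo a b) : ℝ)) hc.eq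
    exact this.symm

lemma Reg.lemC (R : Reg G) {f y : G} {a b : ℝ} (c : Comp f a b) (ya : y • a = a) (yb : y • b = b)
    (hf : Eng f) (hy : Eng y) (x : ℝ) (x1 : a < x) (x2 : x < b) : y • f • x = f • y • x := by
  have hm := R.mono
  have tr : ∀ s : St G a b, Eng (s : G) → Eng ((res hm a b).rangeRestrict s) := fun s hs =>
    (Eng.of_inj (St G a b).subtype Subtype.val_injective hs).map_surj _
      (res hm a b).rangeRestrict_surjective
  have := (R.good c.lt).lemC (f := (res hm a b).rangeRestrict ⟨f, c.fa, c.fb⟩)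
    (y := (res hm a b).rangeRestrict ⟨y, ya, yb⟩)
    (fun t h => c.free t t.2.1 t.2.2 (congrArg Subtype.val h)) (tr _ hf) (tr _ hy)
  have h2 := congrArg (fun u : (res hm a b).range => ((u • (⟨x, x1, x2⟩ : Ioo a b) : Ioo a b) : ℝ))
    this.eq
  exact h2.symm

/-- if `f` is the identity on an open interval around an endpoint of a component: contradiction -/
lemma Comp.not_id_left {f : G} {a b c d : ℝ} (k : Comp f a b) (h1 : c < a) (h2 : a < d)
    (h : ∀ q, c < q → q < d → f • q = q) : False := by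
  have m1 := min_le_left b d
  have m2 := min_le_right b d
  have m3 : a < min b d := lt_min k.lt h2
  exact k.free ((a + min b d) / 2) (by linarith) (by linarith) (h _ (by linarith) (by linarith))

lemma Comp.not_id_right {f : G} {a b c d : ℝ} (k : Comp f a b) (h1 : c < b) (h2 : b < d)
    (h : ∀ q, c < q → q < d → f • q = q) : False := by
  have m1 := le_max_left a c
  have m2 := le_max_right a c
  have m3 : max a c < b := max_lt k.lt h1
  exact k.free ((max a c + b) / 2) (by linarith) (by linarith) (h _ (by linarith) (by linarith))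

lemma Reg.comm_fix (R : Reg G) (hfix : ∀ (g : G) (x : ℝ), x ≤ 0 ∨ 1 ≤ x → g • x = x)
    {f h : G} (hc : Commute f h) {a b : ℝ} (k : Comp f a b) : h • a = a ∧ h • b = b := by
  have hm := R.mono
  have key : ∀ e : ℝ, f • e = e → h • e ≠ e → ∃ c d, c < e ∧ e < d ∧ ∀ q, c < q → q < d → f • q = q := by
    intro e he hne
    obtain ⟨c, d, c1, d1, l⟩ := exists_comp hm hfix hne
    have l2 := l.conj hm f
    rw [hc.eq, mul_inv_cancel_right] at l2
    have e1 : f • c < e := he ▸ hm f c1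
    have e2 : e < f • d := he ▸ hm f d1
    obtain ⟨f1, f2⟩ := ends_eq c1 d1 e1 e2 (fun t => l.free _ t.1 t.2 l2.fa)
      (fun t => l.free _ t.1 t.2 l2.fb) (fun t => l2.free _ t.1 t.2 l.fa)
      (fun t => l2.free _ t.1 t.2 l.fb)
    refine ⟨c, d, c1, d1, fun q q1 q2 => ?_⟩
    exact R.kopell l f1.symm f2.symm (fun x _ _ => by rw [← mul_smul, ← mul_smul, hc.eq]) c1 d1 he
      q1 q2
  constructor
  · by_contra hne
    obtain ⟨c, d, c1, d1, l⟩ := key a k.fa hne
    exact k.not_id_left c1 d1 l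
  · by_contra hne
    obtain ⟨c, d, c1, d1, l⟩ := key b k.fb hne
    exact k.not_id_right c1 d1 l

lemma Reg.descent (R : Reg G) (hfix : ∀ (g : G) (x : ℝ), x ≤ 0 ∨ 1 ≤ x → g • x = x)
    (hfa : ∀ g : G, (∀ x : ℝ, g • x = x) → g = 1) {g v : G} (hg : Eng g) (hv : Eng v)
    (hc : Commute g (v * g * v⁻¹)) : Commute g v := by
  have hm := R.mono
  -- overlapping case
  have ov : ∀ a b x, Comp g a b → a < x → x < b → v • x = x → v • a = a ∧ v • b = b := by
    intro a b x k x1 x2 hx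
    have k2 := k.conj hm v
    have e1 : v • a < x := hx ▸ hm v x1
    have e2 : x < v • b := hx ▸ hm v x2
    obtain ⟨w1, w2⟩ := R.comm_fix hfix hc k
    obtain ⟨g1, g2⟩ := R.comm_fix hfix hc.symm k2
    obtain ⟨f1, f2⟩ := ends_eq x1 x2 e1 e2 (fun t => k.free _ t.1 t.2 g1)
      (fun t => k.free _ t.1 t.2 g2) (fun t => k2.free _ t.1 t.2 w1)
      (fun t => k2.free _ t.1 t.2 w2)
    exact ⟨f1.symm, f2.symm⟩
  have key : ∀ e : ℝ, g • e = e → v • e ≠ e → ∃ c d, c < e ∧ e < d ∧ ∀ q, c < q → q < d → g • q = q := by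
    intro e he hne
    obtain ⟨c, d, c1, d1, l⟩ := exists_comp hm hfix hne
    have gc : g • c = c := by
      by_contra h
      obtain ⟨a', b', a1, b1, k⟩ := exists_comp hm hfix h
      have hb := (ov a' b' c k a1 b1 l.fa).2
      have : b' ≤ e := by
        by_contra h2
        exact k.free e (by linarith) (not_le.1 h2) he
      exact l.free b' b1 (by linarith) hb
    have gd : g • d = d := by
      by_contra h
      obtain ⟨a', b', a1, b1, k⟩ := exists_comp hm hfix h
      have ha := (ov a' b' d k a1 b1 l.fb).1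
      have : e ≤ a' := by
        by_contra h2
        exact k.free e (not_le.1 h2) (by linarith) he
      exact l.free a' (by linarith) a1 ha
    refine ⟨c, d, c1, d1, fun q q1 q2 => ?_⟩
    exact R.kopell l gc gd (R.lemC l gc gd hv hg) c1 d1 he q1 q2
  have ends : ∀ a b, Comp g a b → v • a = a ∧ v • b = b := by
    intro a b k
    constructor
    · by_contra hne
      obtain ⟨c, d, c1, d1, l⟩ := key a k.fa hne
      exact k.not_id_left c1 d1 l
    · by_contra hne
      obtain ⟨c, d, c1, d1, l⟩ := key b k.fb hne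
      exact k.not_id_right c1 d1 l
  have pt : ∀ x : ℝ, v • g • x = g • v • x := by
    intro x
    by_cases hx : g • x = x
    · rw [hx]
      by_contra h
      obtain ⟨a, b, a1, b1, k⟩ := exists_comp hm hfix (Ne.symm h)
      obtain ⟨e1, e2⟩ := ends a b k
      have := maps_Ioo hm (inv_fix e1) (inv_fix e2) a1 b1
      rw [inv_smul_smul] at this
      exact k.free x this.1 this.2 hx
    · obtain ⟨a, b, a1, b1, k⟩ := exists_comp hm hfix hx
      obtain ⟨e1, e2⟩ := ends a b k
      exact R.lemC k e1 e2 hg hv x a1 b1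
  have : (g * v)⁻¹ * (v * g) = 1 := hfa _ fun x => by
    rw [mul_smul, mul_smul v, pt, ← mul_smul g v, inv_smul_smul]
  exact inv_mul_eq_one.1 this

theorem Reg.two (R : Reg G) (hfix : ∀ (g : G) (x : ℝ), x ≤ 0 ∨ 1 ≤ x → g • x = x)
    (hfa : ∀ g : G, (∀ x : ℝ, g • x = x) → g = 1) (g : G) (hg : Eng g) (x : G) :
    Commute g (x⁻¹ * g * x) :=
  two_of_descent hg (fun x hx => R.descent hfix hfa hg (hg.conj x) hx) x

end Pool.Agent.MP_f21dda_al
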