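import Pool.Agent.MP_f21dda_al.Main

set_option autoImplicit false

namespace Pool.Agent.MP_f21dda_al.SmoothInterval

/-- Groups acting faithfully on `[0,1]` by increasing homeomorphisms that are `C²` on a right
neighbourhood of every point: the boundedly Engel elements form a subgroup. -/
theorem result :
    ∀ (G : Type) [Group G] (ρ : G →* (ℝ ≃o ℝ)), Function.Injective ρ →
      (∀ (g : G) (x : ℝ), x ≤ 0 ∨ 1 ≤ x → ρ g x = x) →
      (∀ (g : G) (x : ℝ), ∃ ε > 0, ContDiffOn ℝ 2 (ρ g) (Set.Icc x (x + ε))) →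
      ∃ H : Subgroup G,
        (H : Set G) =
          {g : G | ∃ n : ℕ, ∀ x : G, (fun y : G => y⁻¹ * g⁻¹ * y * g)^[n] x = 1} := by
  intro G _ ρ hinj hfix hreg
  letI : MulAction G ℝ :=
    { smul := fun g x => ρ g x
      one_smul := fun x => by show ρ 1 x = x; rw [map_one]; rfl
      mul_smul := fun g h x => by show ρ (g * h) x = ρ g (ρ h x); rw [map_mul]; rfl }
  have R : Pool.Agent.MP_f21dda_al.Reg G := ⟨fun g => (ρ g).strictMono, hreg⟩
  have hfa : ∀ g : G, (∀ x : ℝ, g • x = x) → g = 1 := fun g h =>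
    hinj (by rw [map_one]; exact RelIso.ext h)
  exact Pool.Agent.MP_f21dda_al.subgroup_of_two (R.two hfix hfa)

end Pool.Agent.MP_f21dda_al.SmoothInterval
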